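import Pool.Agent.Lib.MP_12b84a_co.Three

/-!
A 1-factorisation of the complete graph on `3p - 1` vertices in which every 1-factor forms a
Hamilton cycle with all but at most two of the other 1-factors.
-/

set_option autoImplicit false

namespace Pool.Agent.Results.MP_12b84a_co.DefectTwo

open Pool.Agent.Lib.MP_12b84a_co Sum

lemma conn_sub {p : ℕ} [Fact p.Prime] (A B : W p → W p) (hA : ∀ v, ok v → ok (A v))
    (hB : ∀ v, ok v → ok (B v))
    (H : ∀ K : W p → Prop, (∀ v, K v → ok v) → (∀ v, K v → K (A v)) → (∀ v, K v → K (B v)) →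
      K (inr true) → ∀ v, ok v → K v) :
    Conn (fun v : {v : W p // ok v} => (⟨A v.1, hA _ v.2⟩ : {v : W p // ok v}))
      (fun v : {v : W p // ok v} => (⟨B v.1, hB _ v.2⟩ : {v : W p // ok v})) := by
  refine ⟨⟨inr true, trivial⟩, fun K h1 h2 h0 v => ?_⟩
  obtain ⟨_, h⟩ := H (fun w => ∃ h : ok w, K ⟨w, h⟩) (fun w h => h.1)
    (fun w h => ⟨hA w h.1, h1 _ h.2⟩) (fun w h => ⟨hB w h.1, h2 _ h.2⟩) ⟨trivial, h0⟩ v.1 v.2
  exact h

def eqv (p : ℕ) [Fact p.Prime] :
    {v : W p // ok v} ≃ (Fin 3 × {x : ZMod p // x ≠ 0}) ⊕ Bool where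
  toFun v := match v with
    | ⟨inl w, h⟩ => inl (w.1, ⟨w.2, h⟩)
    | ⟨inr b, _⟩ => inr b
  invFun v := match v with
    | inl w => ⟨inl (w.1, w.2.1), w.2.2⟩
    | inr b => ⟨inr b, trivial⟩
  left_inv := by rintro ⟨w | b, h⟩ <;> rfl
  right_inv := by rintro (w | b) <;> rfl

theorem result (p n : ℕ) (hp : p.Prime) (h5 : 5 ≤ p) (hn : 2 * n + 1 = 3 * p) :
    ∃ c : Fin (2 * n) → Fin (2 * n) → Fin (2 * n - 1),
      (∀ v w : Fin (2 * n), c v w = c w v) ∧
      (∀ (v : Fin (2 * n)) (i : Fin (2 * n - 1)), ∃! w : Fin (2 * n), w ≠ v ∧ c v w = i) ∧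
      (∀ i : Fin (2 * n - 1), {j : Fin (2 * n - 1) | j ≠ i ∧
        ¬ (SimpleGraph.fromRel
          (fun v w : Fin (2 * n) => c v w = i ∨ c v w = j)).IsHamiltonian}.ncard ≤ 2) ∧
      (∃ i : Fin (2 * n - 1), ∀ j : Fin (2 * n - 1), j ≠ i →
        (SimpleGraph.fromRel
          (fun v w : Fin (2 * n) => c v w = i ∨ c v w = j)).IsHamiltonian) := by
  classical
  have : Fact p.Prime := ⟨hp⟩
  have small : ∀ k : ℕ, 0 < k → k < 5 → ((k : ℕ) : ZMod p) ≠ 0 := by
    intro k h0 hk h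
    rw [ZMod.natCast_eq_zero_iff] at h
    have := Nat.le_of_dvd h0 h
    omega
  have h2 : (2 : ZMod p) ≠ 0 := by simpa using small 2 (by omega) (by omega)
  have h3 : (3 : ZMod p) ≠ 0 := by simpa using small 3 (by omega) (by omega)
  let m : Fin 3 → ZMod p := ![1, -(3 : ZMod p)⁻¹, 1]
  have hm : ∀ q, m q ≠ 0 := by
    intro q
    fin_cases q <;> simp [m, h3]
  have hm3 : ∀ q, 3 * (m q * m (q + 1) * m (q + 2)) = -1 := by
    intro q
    fin_cases q <;> simp [m, h3]
  have hU : Fintype.card {x : ZMod p // x ≠ 0} = p - 1 := by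
    rw [Fintype.card_subtype_compl, Fintype.card_subtype_eq, ZMod.card]
  have hV : Fintype.card {v : W p // ok v} = 2 * n := by
    rw [Fintype.card_congr (eqv p), Fintype.card_sum, Fintype.card_prod, hU, Fintype.card_fin,
      Fintype.card_bool]
    omega
  have hC : Fintype.card (Option (Fin 3 × {x : ZMod p // x ≠ 0})) = 2 * n - 1 := by
    rw [Fintype.card_option, Fintype.card_prod, hU, Fintype.card_fin]
    omega
  let T : Option (Fin 3 × {x : ZMod p // x ≠ 0}) → {v : W p // ok v} → {v : W p // ok v} :=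
    fun i => match i with
      | none => fun v => ⟨ng v.1, (ng_spec h2 v.1 v.2).1⟩
      | some i => fun v => ⟨ff m i.1 i.2.1 v.1, (ff_spec m i.1 i.2.1 hm h2 i.2.2 v.1 v.2).1⟩
  have hinv : ∀ i v, T i (T i v) = v := by
    rintro (_ | i) v
    · exact Subtype.ext (ng_spec h2 v.1 v.2).2.1
    · exact Subtype.ext (ff_spec m i.1 i.2.1 hm h2 i.2.2 v.1 v.2).2.1
  have hne : ∀ i v, T i v ≠ v := by
    rintro (_ | i) v h
    · exact (ng_spec h2 v.1 v.2).2.2 (congrArg Subtype.val h)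
    · exact (ff_spec m i.1 i.2.1 hm h2 i.2.2 v.1 v.2).2.2 (congrArg Subtype.val h)
  have cN : ∀ i, Conn (T none) (T (some i)) := fun i =>
    conn_sub _ _ (fun v hv => (ng_spec h2 v hv).1)
      (fun v hv => (ff_spec m i.1 i.2.1 hm h2 i.2.2 v hv).1)
      (fun K hok hA hB hT => conn_neg hm h2 i.2.2 hok hA hB hT)
  have cS : ∀ q j k, j ≠ k → Conn (T (some (q, j))) (T (some (q, k))) := fun q j k hjk =>
    conn_sub _ _ (fun v hv => (ff_spec m q j.1 hm h2 j.2 v hv).1)
      (fun v hv => (ff_spec m q k.1 hm h2 k.2 v hv).1)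
      (fun K hok hA hB hT => conn_same hm h2 j.2 (fun e => hjk (Subtype.ext e)) hok hA hB hT)
  have cX : ∀ q (j k : {x : ZMod p // x ≠ 0}), k.1 ≠ m q * j.1 →
      Conn (T (some (q, j))) (T (some (q + 1, k))) := fun q j k hjk =>
    conn_sub _ _ (fun v hv => (ff_spec m q j.1 hm h2 j.2 v hv).1)
      (fun v hv => (ff_spec m (q + 1) k.1 hm h2 k.2 v hv).1)
      (fun K hok hA hB hT => conn_cross hm (hm3 q) h2 h3 j.2 k.2 hjk hok hA hB hT)
  have hcard : 2 < Fintype.card {v : W p // ok v} := by omega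
  have hinj : ∀ i j v, T i v = T j v → i = j := by
    rintro (_ | ⟨q, j⟩) (_ | ⟨r, k⟩) v h
    · rfl
    · exact absurd h ((cN (r, k)).ne (hinv none) (hinv (some (r, k))) hcard v)
    · exact absurd h.symm ((cN (q, j)).ne (hinv none) (hinv (some (q, j))) hcard v)
    · rcases qtri q r with rfl | rfl | rfl
      · by_contra hc
        exact (cS r j k (fun e => hc (by rw [e]))).ne (hinv (some (r, j)))
          (hinv (some (r, k))) hcard v h
      · exact absurd (congrArg Subtype.val h) (cross_ne hm h2 j.2 k.1 v.1)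
      · have := cross_ne (q := q + 2) hm h2 k.2 j.1 v.1
        rw [q2p1] at this
        exact absurd (congrArg Subtype.val h).symm this
  refine fin_of_family (2 * n) (2 * n - 1) hV hC (by omega) T hinv hne hinj
    (Option.map fun i => (i.1 + 1, ⟨m i.1 * i.2.1, mul_ne_zero (hm _) i.2.2⟩))
    (Option.map fun i => (i.1 + 2, ⟨(m (i.1 + 2))⁻¹ * i.2.1,
      mul_ne_zero (inv_ne_zero (hm _)) i.2.2⟩)) none ?_ ?_
  · rintro (_ | ⟨q, j⟩) (_ | ⟨r, k⟩) h0 h1 h2'
    · exact absurd rfl h0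
    · exact cN _
    · exact (cN _).symm
    · rcases qtri q r with rfl | rfl | rfl
      · exact cS r j k (fun e => h0 (by rw [e]))
      · exact cX q j k (fun e => h1 (congrArg some (Prod.ext rfl (Subtype.ext e))))
      · have := cX (q + 2) k j (fun e => h2' (congrArg some (Prod.ext rfl (Subtype.ext (by
          show k.1 = (m (q + 2))⁻¹ * j.1
          rw [e, inv_mul_cancel_left₀ (hm _)])))))
        rw [q2p1] at this
        exact this.symm
  · rintro (_ | i) h
    · exact absurd rfl h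
    · exact cN i

end Pool.Agent.Results.MP_12b84a_co.DefectTwo
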