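import Pool.Agent.Lib.MP_12b84a_co.HC.Main

/-!
Hamiltonian-cycle graph codes of the size a perfect 1-factorisation would give, for every large `n`:
the largest family of graphs on `n` vertices whose pairwise symmetric differences are Hamiltonian
has exactly `2 ^ (n - 2)` members, and it can be taken closed under symmetric difference.
-/

set_option autoImplicit false

namespace Pool.Agent.Results.MP_12b84a_co.HamCode

open scoped symmDiff

theorem result : ∀ n : ℕ, 2 ^ 18 ≤ n →
    (∃ F : Finset (SimpleGraph (Fin n)),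
      (∀ G ∈ F, ∀ H ∈ F, G ∆ H ∈ F) ∧ F.card = 2 ^ (n - 2) ∧
        ∀ G ∈ F, ∀ H ∈ F, G ≠ H → (G ∆ H).IsHamiltonian) ∧
    ∀ F : Finset (SimpleGraph (Fin n)),
      (∀ G ∈ F, ∀ H ∈ F, G ≠ H → (G ∆ H).IsHamiltonian) → F.card ≤ 2 ^ (n - 2) := by
  intro n hn
  refine ⟨Pool.Agent.Lib.MP_12b84a_co.HC.code_exists n hn, fun F hF => ?_⟩
  have h := Pool.Agent.Lib.MP_12b84a_co.HC.code_le (V := Fin n)
    (by rw [Fintype.card_fin]; omega) F hF
  rwa [Fintype.card_fin] at h

end Pool.Agent.Results.MP_12b84a_co.HamCode
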